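import Mathlib

set_option autoImplicit false

namespace Pool.Agent.H.MP_8bf09d_lc
open Nat.Partrec (Code)
open Nat.Partrec.Code

def hl (e t : ℕ) : Prop := (evaln t (Denumerable.ofNat Code e) 0).isSome = true

instance (e t : ℕ) : Decidable (hl e t) := by unfold hl; infer_instance

def R (a b : ℕ) : Prop :=
  a.unpair.1 < b.unpair.1 ∧ a < b ∧ ∀ e < a.unpair.1, hl e b → hl e a

instance (a b : ℕ) : Decidable (R a b) := by unfold R; infer_instance

lemma hl_mono {e s t : ℕ} (h : s ≤ t) (hs : hl e s) : hl e t := by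
  unfold hl at *
  obtain ⟨x, hx⟩ := Option.isSome_iff_exists.1 hs
  exact Option.isSome_iff_exists.2 ⟨x, evaln_mono h hx⟩

lemma hl_prim : PrimrecRel hl := by
  have h1 : Primrec fun p : ℕ × ℕ => evaln p.2 (Denumerable.ofNat Code p.1) 0 :=
    primrec_evaln.comp (Primrec.pair (Primrec.pair Primrec.snd
      ((Primrec.ofNat Code).comp Primrec.fst)) (Primrec.const 0))
  have h2 : Primrec fun p : ℕ × ℕ => (evaln p.2 (Denumerable.ofNat Code p.1) 0).isSome :=
    Primrec.option_isSome.comp h1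
  exact Primrec.eq.comp h2 (Primrec.const true)

lemma R_prim : PrimrecRel R := by
  have hu : Primrec fun a : ℕ => a.unpair.1 := Primrec.fst.comp Primrec.unpair
  have h1 : PrimrecPred fun p : ℕ × ℕ => p.1.unpair.1 < p.2.unpair.1 :=
    Primrec.nat_lt.comp (hu.comp Primrec.fst) (hu.comp Primrec.snd)
  have h2 : PrimrecPred fun p : ℕ × ℕ => p.1 < p.2 :=
    Primrec.nat_lt.comp Primrec.fst Primrec.snd
  have h3 : PrimrecRel fun (e : ℕ) (p : ℕ × ℕ) => ¬ hl e p.2 ∨ hl e p.1 :=
    PrimrecPred.or (PrimrecPred.not (hl_prim.comp Primrec.fst (Primrec.snd.comp Primrec.snd)))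
      (hl_prim.comp Primrec.fst (Primrec.fst.comp Primrec.snd))
  have h4 : PrimrecPred fun p : ℕ × ℕ => ∀ e < p.1.unpair.1, ¬ hl e p.2 ∨ hl e p.1 :=
    ((PrimrecRel.forall_mem_list h3).comp (Primrec.list_range.comp (hu.comp Primrec.fst))
      Primrec.id).of_eq (by simp)
  refine (h1.and (h2.and h4)).of_eq ?_
  intro p
  simp only [R, imp_iff_not_or (a := hl _ _)]

lemma no_path (d : ℕ → ℕ) (hd : Computable d) : ¬ ∀ i, R (d i) (d (i + 1)) := by
  intro h
  have hL : StrictMono fun i => (d i).unpair.1 := strictMono_nat_of_lt_succ fun i => (h i).1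
  have hD : StrictMono d := strictMono_nat_of_lt_succ fun i => (h i).2.1
  have key : ∀ e j, e + 1 ≤ j → hl e (d j) → hl e (d (e + 1)) := by
    intro e j hj
    induction j, hj using Nat.le_induction with
    | base => exact id
    | succ j hj ih =>
      intro h1
      refine ih ((h j).2.2 e ?_ h1)
      have := hL.id_le j
      simp only [id] at this
      omega
  apply ComputablePred.halting_problem 0
  rw [ComputablePred.computable_iff]
  refine ⟨fun c => (evaln (d (Encodable.encode c + 1)) c 0).isSome, ?_, ?_⟩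
  · refine Primrec.option_isSome.to_comp.comp (primrec_evaln.to_comp.comp
      (Computable.pair (Computable.pair (hd.comp (Computable.succ.comp Computable.encode))
        Computable.id) (Computable.const 0)))
  · funext c
    apply propext
    constructor
    · intro hc
      obtain ⟨x, hx⟩ := Part.dom_iff_mem.1 hc
      obtain ⟨k, hk⟩ := evaln_complete.1 hx
      have h1 : hl (Encodable.encode c) k := by
        unfold hl
        rw [Denumerable.ofNat_encode]
        exact Option.isSome_iff_exists.2 ⟨x, hk⟩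
      have h2 : hl (Encodable.encode c) (d (max k (Encodable.encode c + 1))) :=
        hl_mono (le_trans (le_max_left _ _) (hD.id_le _)) h1
      have h3 := key _ _ (le_max_right _ _) h2
      unfold hl at h3
      rwa [Denumerable.ofNat_encode] at h3
    · intro hc
      obtain ⟨x, hx⟩ := Option.isSome_iff_exists.1 hc
      exact Part.dom_iff_mem.2 ⟨x, evaln_sound hx⟩

lemma ex_path : ∃ a : ℕ → ℕ, (∀ n, R (a n) (a (n + 1))) ∧ ∀ n, 2 ≤ a n := by
  have hT : ∀ n : ℕ, ∃ T, ∀ e < n, ∀ t, hl e t → hl e T := by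
    intro n
    induction n with
    | zero => exact ⟨0, fun e he => absurd he (Nat.not_lt_zero _)⟩
    | succ n ih =>
      obtain ⟨T, hT⟩ := ih
      by_cases hn : ∃ t, hl n t
      · obtain ⟨t, ht⟩ := hn
        refine ⟨max T t, fun e he s hs => ?_⟩
        rcases Nat.lt_succ_iff_lt_or_eq.1 he with h | rfl
        · exact hl_mono (le_max_left _ _) (hT e h s hs)
        · exact hl_mono (le_max_right _ _) ht
      · refine ⟨T, fun e he s hs => ?_⟩
        rcases Nat.lt_succ_iff_lt_or_eq.1 he with h | rfl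
        · exact hT e h s hs
        · exact absurd ⟨s, hs⟩ hn
  choose T hT using hT
  let a : ℕ → ℕ := fun n => Nat.rec (Nat.pair 0 (T 0 + 2))
    (fun n x => Nat.pair (n + 1) (T (n + 1) + x + 2)) n
  have h0 : a 0 = Nat.pair 0 (T 0 + 2) := rfl
  have hs : ∀ n, a (n + 1) = Nat.pair (n + 1) (T (n + 1) + a n + 2) := fun n => rfl
  have hu : ∀ n, (a n).unpair.1 = n := by
    intro n
    cases n with
    | zero => rw [h0, Nat.unpair_pair]
    | succ n => rw [hs, Nat.unpair_pair]
  have hle : ∀ n, T n + 2 ≤ a n := by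
    intro n
    cases n with
    | zero => rw [h0]; exact Nat.right_le_pair _ _
    | succ n =>
      rw [hs]
      exact le_trans (by omega) (Nat.right_le_pair _ _)
  refine ⟨a, fun n => ⟨?_, ?_, ?_⟩, fun n => le_trans (by omega) (hle n)⟩
  · have h1 := hu n
    have h2 := hu (n + 1)
    omega
  · rw [hs]
    exact lt_of_lt_of_le (by omega) (Nat.right_le_pair _ _)
  · intro e he h
    rw [hu] at he
    exact hl_mono (le_trans (by omega) (hle n)) (hT n e he _ h)

noncomputable def dg {V : Type} (H : SimpleGraph V) (v : V) : ℕ := (H.neighborSet v).ncard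

def Q {V : Type} (H : SimpleGraph V) (c : V → Fin 2) (v : V) : Prop :=
  (∃ w, H.Adj v w ∧ R (dg H v / 2) (dg H w / 2)) →
    ∃ w, H.Adj v w ∧ R (dg H v / 2) (dg H w / 2) ∧ ((c v).val + (c w).val + dg H v) % 2 = 0

lemma ball_cases {V : Type} (H : SimpleGraph V) (v w : V) (h : H.edist v w ≤ ((2 : ℕ) : ℕ∞)) :
    w = v ∨ H.Adj v w ∨ ∃ u, H.Adj v u ∧ H.Adj u w := by
  have hne : H.edist v w ≠ ⊤ := ne_top_of_le_ne_top (ENat.coe_ne_top 2) h
  obtain ⟨p, hp⟩ := SimpleGraph.exists_walk_of_edist_ne_top hne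
  rw [← hp] at h
  have hl : p.length ≤ 2 := by exact_mod_cast h
  match p, hl with
  | .nil, _ => exact Or.inl rfl
  | .cons h1 .nil, _ => exact Or.inr (Or.inl h1)
  | .cons h1 (.cons h2 .nil), _ => exact Or.inr (Or.inr ⟨_, h1, h2⟩)
  | .cons _ (.cons _ (.cons _ _)), hl => simp at hl

lemma ball_adj {V : Type} (H : SimpleGraph V) {v w : V} (h : H.Adj v w) :
    H.edist v w ≤ ((2 : ℕ) : ℕ∞) := by
  have := SimpleGraph.edist_le (SimpleGraph.Walk.cons h SimpleGraph.Walk.nil)
  refine le_trans this ?_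
  simp

lemma ball_adj2 {V : Type} (H : SimpleGraph V) {v u w : V} (h : H.Adj v u) (h2 : H.Adj u w) :
    H.edist v w ≤ ((2 : ℕ) : ℕ∞) := by
  have := SimpleGraph.edist_le
    (SimpleGraph.Walk.cons h (SimpleGraph.Walk.cons h2 SimpleGraph.Walk.nil))
  refine le_trans this ?_
  simp

lemma ball_fin {V : Type} (H : SimpleGraph V) (hf : ∀ x, (H.neighborSet x).Finite) (v : V) :
    {w | H.edist v w ≤ ((2 : ℕ) : ℕ∞)}.Finite := by
  refine ((Set.finite_singleton v).union ((hf v).union ((hf v).biUnion fun u _ => hf u))).subset ?_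
  intro w hw
  rcases ball_cases H v w hw with h | h | ⟨u, h1, h2⟩
  · exact Or.inl h
  · exact Or.inr (Or.inl h)
  · exact Or.inr (Or.inr (Set.mem_biUnion (show u ∈ H.neighborSet v from h1) h2))

lemma ex_enum {V : Type} (S : Set V) (hS : S.Finite) (v : V) (hv : v ∈ S) :
    ∃ n : ℕ, ∃ e : Fin (n + 1) → V, Function.Injective e ∧ e 0 = v ∧ Set.range e = S := by
  haveI : Finite S := hS.to_subtype
  obtain ⟨m, ⟨φ⟩⟩ := Finite.exists_equiv_fin S
  cases m with
  | zero => exact (φ ⟨v, hv⟩).elim0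
  | succ n =>
    refine ⟨n, fun i => (φ.symm (Equiv.swap 0 (φ ⟨v, hv⟩) i)).1, ?_, ?_, ?_⟩
    · exact Subtype.val_injective.comp (φ.symm.injective.comp (Equiv.swap _ _).injective)
    · simp
    · ext w
      constructor
      · rintro ⟨i, rfl⟩
        exact (φ.symm _).2
      · intro hw
        exact ⟨Equiv.swap 0 (φ ⟨v, hv⟩) (φ ⟨w, hw⟩), by simp⟩

lemma dg_comap {V W : Type} (H : SimpleGraph V) (e : W → V) (he : Function.Injective e) (i : W)
    (h : ∀ w, H.Adj (e i) w → w ∈ Set.range e) : dg (H.comap e) i = dg H (e i) := by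
  unfold dg
  have : (H.comap e).neighborSet i = e ⁻¹' H.neighborSet (e i) := rfl
  rw [this]
  exact Set.ncard_preimage_of_injective_subset_range he h

lemma Q_comap {V : Type} (H : SimpleGraph V) (c : V → Fin 2) (v : V) (n : ℕ)
    (e : Fin (n + 1) → V) (he : Function.Injective e) (h0 : e 0 = v)
    (hr : Set.range e = {w | H.edist v w ≤ ((2 : ℕ) : ℕ∞)}) :
    Q (H.comap e) (c ∘ e) 0 ↔ Q H c v := by
  have d0 : dg (H.comap e) 0 = dg H v := by
    rw [dg_comap H e he 0, h0]
    intro w hw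
    rw [hr]
    exact ball_adj H (h0 ▸ hw)
  have d1 : ∀ i, H.Adj v (e i) → dg (H.comap e) i = dg H (e i) := by
    intro i hi
    refine dg_comap H e he i fun w hw => ?_
    rw [hr]
    exact ball_adj2 H hi hw
  have hex : ∀ w, H.Adj v w → ∃ i, e i = w := by
    intro w hw
    have : w ∈ Set.range e := by
      rw [hr]
      exact ball_adj H hw
    exact this
  unfold Q
  simp only [SimpleGraph.comap_adj, h0, d0, Function.comp]
  constructor
  · rintro h ⟨w, hw, hR⟩
    obtain ⟨i, rfl⟩ := hex w hw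
    obtain ⟨j, hj, h1, h2⟩ := h ⟨i, hw, by rwa [d1 i hw]⟩
    exact ⟨e j, hj, by rwa [d1 j hj] at h1, h2⟩
  · rintro h ⟨i, hi, hR⟩
    obtain ⟨w, hw, h1, h2⟩ := h ⟨e i, hi, by rwa [d1 i hi] at hR⟩
    obtain ⟨j, rfl⟩ := hex w hw
    exact ⟨j, hw, by rwa [d1 j hw], h2⟩

end Pool.Agent.H.MP_8bf09d_lc
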