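import Pool.Agent.H.MP_8bf09d_lc.A

set_option autoImplicit false

namespace Pool.Agent.H.MP_8bf09d_lc

def D (l : List ℕ) : ℕ := ((List.range (l.foldr max 0 + 1)).filter (fun a => ∃ x ∈ l, x = a)).length

lemma le_foldr (l : List ℕ) (a : ℕ) (h : a ∈ l) : a ≤ l.foldr max 0 := by
  induction l with
  | nil => simp at h
  | cons b l ih =>
    rcases List.mem_cons.1 h with rfl | h
    · exact le_max_left _ _
    · exact le_trans (ih h) (le_max_right _ _)

lemma D_eq (l : List ℕ) : D l = {a | a ∈ l}.ncard := by
  unfold D
  set m := (List.range (l.foldr max 0 + 1)).filter (fun a => ∃ x ∈ l, x = a) with hm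
  have hn : m.Nodup := List.Nodup.filter _ List.nodup_range
  have : {a | a ∈ l} = (m.toFinset : Set ℕ) := by
    ext a
    simp only [Set.mem_setOf_eq, hm, List.coe_toFinset, List.mem_filter, List.mem_range,
      exists_eq_right, decide_eq_true_eq]
    constructor
    · intro h
      exact ⟨Nat.lt_succ_of_le (le_foldr l a h), h⟩
    · exact fun h => h.2
  rw [this, Set.ncard_coe_finset, List.toFinset_card_of_nodup hn]

lemma D_prim : Primrec D := by
  have h1 : Primrec fun l : List ℕ => l.foldr max 0 :=
    (Primrec.list_foldr Primrec.id (Primrec.const 0)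
      (Primrec.nat_max.comp (Primrec.fst.comp Primrec.snd) (Primrec.snd.comp Primrec.snd)).to₂).of_eq
      fun l => rfl
  have h2 : PrimrecRel fun (a : ℕ) (l : List ℕ) => ∃ x ∈ l, x = a :=
    (PrimrecRel.exists_mem_list (Primrec.eq (α := ℕ))).comp Primrec.snd Primrec.fst
  exact Primrec.list_length.comp ((PrimrecRel.listFilter h2).comp
    (Primrec.list_range.comp (Primrec.succ.comp h1)) Primrec.id)

lemma comp_side (H : SimpleGraph ℕ) (f : ℕ → List ℕ) (hf : Computable f)
    (hH : ∀ a b : ℕ, H.Adj a b ↔ b ∈ f a) :
    ∃ c : ℕ → Fin 2, Computable c ∧ ∀ v, Q H c v := by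
  have hdg : ∀ a, dg H a = D (f a) := by
    intro a
    rw [D_eq]
    unfold dg
    congr 1
    ext b
    exact hH a b
  have hd : Computable fun a => D (f a) := D_prim.to_comp.comp hf
  have hd2 : Computable fun a => D (f a) / 2 :=
    Primrec.nat_div.to_comp.comp hd (Computable.const 2)
  have hget : Computable fun p : ℕ × ℕ => (f p.1).getD p.2 0 :=
    (Primrec.list_getD 0).to_comp.comp (hf.comp Computable.fst) Computable.snd
  have hlen : Computable fun a => (f a).length := Primrec.list_length.to_comp.comp hf
  let S : ℕ → ℕ → Prop := fun a i =>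
    (f a).length ≤ i ∨ R (D (f a) / 2) (D (f ((f a).getD i 0)) / 2)
  have hS : ComputablePred fun p : ℕ × ℕ => S p.1 p.2 := by
    have h1 : PrimrecPred fun q : (ℕ × ℕ) × (ℕ × ℕ) => q.1.1 ≤ q.1.2 ∨ R q.2.1 q.2.2 :=
      PrimrecPred.or (Primrec.nat_le.comp (Primrec.fst.comp Primrec.fst)
        (Primrec.snd.comp Primrec.fst))
        (R_prim.comp (Primrec.fst.comp Primrec.snd) (Primrec.snd.comp Primrec.snd))
    have h2 := h1.decide.to_comp.comp (Computable.pair
      (Computable.pair (hlen.comp Computable.fst) Computable.snd)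
      (Computable.pair (hd2.comp Computable.fst) (hd2.comp hget)))
    exact Computable.computablePred h2
  have hSex : ∀ a, ∃ i, S a i := fun a => ⟨(f a).length, Or.inl le_rfl⟩
  let idx : ℕ → ℕ := fun a => Nat.find (hSex a)
  have hidx : Computable idx := Computable.find hS hSex
  let par : ℕ → ℕ := fun a => (f a).getD (idx a) 0
  have hpar : Computable par := hget.comp (Computable.pair Computable.id hidx)
  have hp1 : ∀ a, idx a < (f a).length →
      par a ∈ f a ∧ R (D (f a) / 2) (D (f (par a)) / 2) := by
    intro a ha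
    refine ⟨?_, ?_⟩
    · show (f a).getD (idx a) 0 ∈ f a
      rw [List.getD_eq_getElem _ _ ha]
      exact List.getElem_mem _
    · rcases Nat.find_spec (hSex a) with h | h
      · exact absurd ha (not_lt.2 h)
      · exact h
  have hp2 : ∀ a w, w ∈ f a → R (D (f a) / 2) (D (f w) / 2) → idx a < (f a).length := by
    intro a w hw hR
    obtain ⟨i, hi, rfl⟩ := List.getElem_of_mem hw
    refine lt_of_le_of_lt (Nat.find_min' (hSex a) (Or.inr ?_)) hi
    rwa [List.getD_eq_getElem _ _ hi]
  let it : ℕ → ℕ → ℕ := fun a i => Nat.rec a (fun _ x => par x) i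
  have it0 : ∀ a, it a 0 = a := fun a => rfl
  have its : ∀ a i, it a (i + 1) = par (it a i) := fun a i => rfl
  have its' : ∀ a i, it a (i + 1) = it (par a) i := by
    intro a i
    induction i with
    | zero => rfl
    | succ i ih => rw [its a (i + 1), ih, its (par a) i]
  have hit : Computable fun p : ℕ × ℕ => it p.1 p.2 :=
    Computable.nat_rec Computable.snd Computable.fst
      (hpar.comp (Computable.snd.comp Computable.snd)).to₂
  let T : ℕ → ℕ → Prop := fun a i => (f (it a i)).length ≤ idx (it a i)
  have hT : ComputablePred fun p : ℕ × ℕ => T p.1 p.2 :=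
    Computable.computablePred
      (Primrec.nat_le.decide.to_comp.comp (hlen.comp hit) (hidx.comp hit))
  have hTex : ∀ a, ∃ i, T a i := by
    intro a
    by_contra hne
    refine no_path (fun i => D (f (it a i)) / 2)
      (hd2.comp (hit.comp (Computable.pair (Computable.const a) Computable.id))) fun i => ?_
    have : idx (it a i) < (f (it a i)).length := not_le.1 fun h => hne ⟨i, h⟩
    exact (hp1 _ this).2
  let N : ℕ → ℕ := fun a => Nat.find (hTex a)
  have hN : Computable N := Computable.find hT hTex
  have hNs : ∀ a, idx a < (f a).length → N a = N (par a) + 1 := by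
    intro a ha
    show Nat.find (hTex a) = _
    rw [Nat.find_eq_iff]
    refine ⟨?_, fun n hn => ?_⟩
    · have := Nat.find_spec (hTex (par a))
      show (f (it a (N (par a) + 1))).length ≤ idx (it a (N (par a) + 1))
      rw [its']
      exact this
    · cases n with
      | zero => exact not_le.2 ha
      | succ n =>
        have := Nat.find_min (hTex (par a)) (Nat.lt_of_succ_lt_succ hn)
        show ¬ (f (it a (n + 1))).length ≤ idx (it a (n + 1))
        rw [its']
        exact this
  let sm : ℕ → ℕ → ℕ := fun a n => Nat.rec 0 (fun i x => x + D (f (it a i))) n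
  have sms : ∀ a n, sm a (n + 1) = sm a n + D (f (it a n)) := fun a n => rfl
  have sms' : ∀ a n, sm a (n + 1) = sm (par a) n + D (f a) := by
    intro a n
    induction n with
    | zero => rfl
    | succ n ih => rw [sms a (n + 1), ih, sms (par a) n, its' a n]; omega
  have hsm : Computable fun a => sm a (N a) :=
    Computable.nat_rec hN (Computable.const 0)
      (Primrec.nat_add.to_comp.comp (Computable.snd.comp Computable.snd)
        (hd.comp (hit.comp (Computable.pair Computable.fst
          (Computable.fst.comp Computable.snd))))).to₂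
  have hb : Computable fun a => decide (sm a (N a) % 2 = 0) :=
    (Primrec.eq (α := ℕ)).decide.to_comp.comp
      (Primrec.nat_mod.to_comp.comp hsm (Computable.const 2)) (Computable.const 0)
  let c : ℕ → Fin 2 := fun a => cond (decide (sm a (N a) % 2 = 0)) 0 1
  have hc : ∀ a, (c a).val = sm a (N a) % 2 := by
    intro a
    by_cases h : sm a (N a) % 2 = 0
    · simp [c, h]
    · simp only [c, h, decide_false, cond_false]
      show 1 = _
      omega
  refine ⟨c, Computable.cond hb (Computable.const 0) (Computable.const 1), fun v => ?_⟩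
  rintro ⟨w, hw, hR⟩
  rw [hdg, hdg] at hR
  have h1 := hp2 v w ((hH _ _).1 hw) hR
  obtain ⟨h2, h3⟩ := hp1 v h1
  refine ⟨par v, (hH _ _).2 h2, by rwa [hdg, hdg], ?_⟩
  rw [hc, hc, hdg, hNs v h1, sms']
  omega

end Pool.Agent.H.MP_8bf09d_lc
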