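import Pool.Agent.H.MP_8bf09d_lc.B

set_option autoImplicit false

namespace Pool.Agent.H.MP_8bf09d_lc

abbrev XX := ℕ × ℕ × (ℕ → Bool)

def sh (x : ℕ → Bool) : ℕ → Bool := fun i => x (i + 1)

def cs (b : Bool) (x : ℕ → Bool) : ℕ → Bool := fun i => Nat.casesOn i b x

def Lf (a : ℕ → ℕ) (q : ℕ × ℕ × Bool) : Prop :=
  q.2.1 ≠ 0 ∧ (q.1 = 0 ∨ 3 ≤ q.2.1) ∧ q.2.1 < 2 * a q.1 + q.2.2.toNat

def Par (a : ℕ → ℕ) (u w : XX) : Prop :=
  (u.2.1 = 0 ∧ w = (u.1 + 1, 0, sh u.2.2)) ∨ (Lf a (u.1, u.2.1, u.2.2 0) ∧ w = (u.1, 0, u.2.2))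

def GG (a : ℕ → ℕ) : SimpleGraph XX where
  Adj u w := Par a u w ∨ Par a w u
  symm := ⟨fun _ _ h => h.symm⟩
  loopless := ⟨by
    rintro ⟨n, k, x⟩ h
    have : Par a (n, k, x) (n, k, x) := h.elim id id
    rcases this with ⟨_, h⟩ | ⟨h1, h⟩
    · simp at h
    · simp only [Prod.mk.injEq, true_and, and_true] at h
      exact h1.1 h⟩

def nb (n : ℕ) (x : ℕ → Bool) (j : ℕ) : XX :=
  if j = 0 then (n + 1, 0, sh x) else if n ≠ 0 ∧ j = 1 then (n - 1, 0, cs false x)
  else if n ≠ 0 ∧ j = 2 then (n - 1, 0, cs true x) else (n, j, x)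

lemma sh_cs (b : Bool) (x : ℕ → Bool) : sh (cs b x) = x := rfl

lemma cs_sh (x : ℕ → Bool) : cs (x 0) (sh x) = x := by
  funext i
  cases i <;> rfl

lemma nb_inj (n : ℕ) (x : ℕ → Bool) : Function.Injective (nb n x) := by
  intro i j h
  unfold nb at h
  have hc : cs false x ≠ cs true x := fun h => by simpa [cs] using congrFun h 0
  split_ifs at h <;> simp only [Prod.mk.injEq] at h <;>
    first | omega | exact absurd h.2.2 hc | exact absurd h.2.2.symm hc

lemma nbhd_main (a : ℕ → ℕ) (ha : ∀ n, 2 ≤ a n) (n : ℕ) (x : ℕ → Bool) :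
    (GG a).neighborSet (n, 0, x) = nb n x '' Set.Iio (2 * a n + (x 0).toNat) := by
  have h2 := ha n
  ext ⟨m, k, y⟩
  simp only [SimpleGraph.mem_neighborSet, GG, Par, Set.mem_image, Set.mem_Iio]
  constructor
  · rintro ((⟨_, h⟩ | ⟨h1, _⟩) | (⟨h1, h⟩ | ⟨h1, h⟩))
    · exact ⟨0, by omega, by simp [nb, h]⟩
    · exact absurd rfl h1.1
    · simp only [Prod.mk.injEq, true_and] at h h1
      obtain ⟨rfl, rfl⟩ := h
      subst h1
      cases hy : y 0
      · refine ⟨1, by omega, ?_⟩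
        simp only [nb, ← hy, cs_sh]
        simp
      · refine ⟨2, by omega, ?_⟩
        simp only [nb, ← hy, cs_sh]
        simp
    · simp only [Prod.mk.injEq, true_and] at h
      obtain ⟨rfl, rfl⟩ := h
      obtain ⟨h3, h4, h5⟩ := h1
      simp only at h3 h4 h5
      refine ⟨k, h5, ?_⟩
      unfold nb
      rw [if_neg h3, if_neg (by omega), if_neg (by omega)]
  · rintro ⟨j, hj, h⟩
    unfold nb at h
    split_ifs at h with h1 h3 h4
    · exact Or.inl (Or.inl ⟨trivial, h.symm⟩)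
    · simp only [Prod.mk.injEq] at h
      obtain ⟨rfl, rfl, rfl⟩ := h
      refine Or.inr (Or.inl ⟨rfl, ?_⟩)
      rw [sh_cs, Nat.sub_add_cancel (by omega)]
    · simp only [Prod.mk.injEq] at h
      obtain ⟨rfl, rfl, rfl⟩ := h
      refine Or.inr (Or.inl ⟨rfl, ?_⟩)
      rw [sh_cs, Nat.sub_add_cancel (by omega)]
    · simp only [Prod.mk.injEq] at h
      obtain ⟨rfl, rfl, rfl⟩ := h
      refine Or.inr (Or.inr ⟨⟨h1, ?_, hj⟩, rfl⟩)
      simp only
      omega

lemma nbhd_leaf (a : ℕ → ℕ) (n k : ℕ) (hk : k ≠ 0) (x : ℕ → Bool) :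
    (GG a).neighborSet (n, k, x) ⊆ {(n, 0, x)} := by
  rintro ⟨m, l, y⟩ h
  simp only [SimpleGraph.mem_neighborSet, GG, Par] at h
  rcases h with (⟨h1, _⟩ | ⟨_, h⟩) | (⟨_, h⟩ | ⟨_, h⟩)
  · exact absurd h1 hk
  · exact h
  · simp only [Prod.mk.injEq] at h
    exact absurd h.2.1 hk
  · simp only [Prod.mk.injEq] at h
    exact absurd h.2.1 hk

lemma GG_fin (a : ℕ → ℕ) (ha : ∀ n, 2 ≤ a n) (u : XX) : ((GG a).neighborSet u).Finite := by
  obtain ⟨n, k, x⟩ := u
  by_cases hk : k = 0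
  · subst hk
    rw [nbhd_main a ha]
    exact (Set.finite_Iio _).image _
  · exact (Set.finite_singleton _).subset (nbhd_leaf a n k hk x)

lemma dg_main (a : ℕ → ℕ) (ha : ∀ n, 2 ≤ a n) (n : ℕ) (x : ℕ → Bool) :
    dg (GG a) (n, 0, x) = 2 * a n + (x 0).toNat := by
  unfold dg
  rw [nbhd_main a ha, Set.ncard_image_of_injective _ (nb_inj n x), ← Finset.coe_range,
    Set.ncard_coe_finset, Finset.card_range]

lemma dg_main2 (a : ℕ → ℕ) (ha : ∀ n, 2 ≤ a n) (n : ℕ) (x : ℕ → Bool) :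
    dg (GG a) (n, 0, x) / 2 = a n := by
  rw [dg_main a ha]
  have := Bool.toNat_le (x 0)
  omega

lemma dg_leaf (a : ℕ → ℕ) (n k : ℕ) (hk : k ≠ 0) (x : ℕ → Bool) : dg (GG a) (n, k, x) / 2 = 0 := by
  have := Set.ncard_le_ncard (nbhd_leaf a n k hk x) (Set.finite_singleton _)
  rw [Set.ncard_singleton] at this
  unfold dg
  omega

lemma sh_cont : Continuous sh := continuous_pi fun i => continuous_apply (i + 1)

lemma Par_meas (a : ℕ → ℕ) : MeasurableSet {p : XX × XX | Par a p.1 p.2} := by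
  have h1 : MeasurableSet {p : XX × XX | p.1.2.1 = 0} :=
    (isClosed_eq (by fun_prop) continuous_const).measurableSet
  have h2 : MeasurableSet {p : XX × XX | p.2 = (p.1.1 + 1, 0, sh p.1.2.2)} :=
    (isClosed_eq continuous_snd ((by fun_prop : Continuous fun p : XX × XX => p.1.1 + 1).prodMk
      (continuous_const.prodMk (sh_cont.comp (by fun_prop))))).measurableSet
  have h3 : MeasurableSet {p : XX × XX | p.2 = (p.1.1, 0, p.1.2.2)} :=
    (isClosed_eq continuous_snd (by fun_prop)).measurableSet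
  have h4 : MeasurableSet {p : XX × XX | Lf a (p.1.1, p.1.2.1, p.1.2.2 0)} := by
    have hc : Continuous fun p : XX × XX => (p.1.1, p.1.2.1, p.1.2.2 0) := by fun_prop
    exact ((isOpen_discrete {q | Lf a q}).preimage hc).measurableSet
  exact (h1.inter h2).union (h4.inter h3)

lemma GG_meas (a : ℕ → ℕ) : MeasurableSet {p : XX × XX | (GG a).Adj p.1 p.2} :=
  (Par_meas a).union (measurable_swap (Par_meas a))

lemma Q_main (a : ℕ → ℕ) (ha : ∀ n, 2 ≤ a n) (hR : ∀ n, R (a n) (a (n + 1))) (c : XX → Fin 2)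
    (n : ℕ) (x : ℕ → Bool) (h : Q (GG a) c (n, 0, x)) :
    ((c (n, 0, x)).val + (c (n + 1, 0, sh x)).val + (x 0).toNat) % 2 = 0 := by
  obtain ⟨w, hw, h1, h2⟩ := h ⟨(n + 1, 0, sh x), Or.inl (Or.inl ⟨rfl, rfl⟩), by
    rw [dg_main2 a ha, dg_main2 a ha]; exact hR n⟩
  have hw' : w ∈ (GG a).neighborSet (n, 0, x) := hw
  rw [nbhd_main a ha] at hw'
  obtain ⟨j, _, rfl⟩ := hw'
  have hlt := h1.2.1
  rw [dg_main2 a ha] at hlt
  have hm : StrictMono a := strictMono_nat_of_lt_succ fun i => (hR i).2.1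
  rw [dg_main a ha] at h2
  unfold nb at hlt h2
  split_ifs at hlt h2 with h3 h4 h5
  · omega
  · rw [dg_main2 a ha] at hlt
    have := hm.lt_iff_lt.1 hlt
    omega
  · rw [dg_main2 a ha] at hlt
    have := hm.lt_iff_lt.1 hlt
    omega
  · rw [dg_leaf a _ _ h3] at hlt
    omega

lemma flip (c : XX → Fin 2)
    (h : ∀ n x, ((c (n, 0, x)).val + (c (n + 1, 0, sh x)).val + (x 0).toNat) % 2 = 0) :
    ∀ m n x y, (∀ i, i ≠ m → x i = y i) → x m ≠ y m → c (n, 0, x) ≠ c (n, 0, y) := by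
  intro m
  induction m with
  | zero =>
    intro n x y h1 h2 h3
    have hx := h n x
    have hy := h n y
    have : sh x = sh y := funext fun i => h1 _ (Nat.succ_ne_zero i)
    rw [this, h3] at hx
    apply h2
    revert hx hy
    cases x 0 <;> cases y 0 <;> simp <;> omega
  | succ m ih =>
    intro n x y h1 h2 h3
    have hx := h n x
    have hy := h n y
    refine ih (n + 1) (sh x) (sh y) (fun i hi => h1 _ (by omega)) h2 ?_
    rw [h3, h1 0 (by omega)] at hx
    apply Fin.ext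
    have := (c (n + 1, 0, sh x)).2
    have := (c (n + 1, 0, sh y)).2
    omega

def fl (m : ℕ) (x : ℕ → Bool) : ℕ → Bool := fun i => if i = m then !x i else x i

lemma fl_fl (m : ℕ) (x : ℕ → Bool) : fl m (fl m x) = x := by
  funext i
  unfold fl
  split_ifs <;> simp

lemma fl_cont (m : ℕ) : Continuous (fl m) := by
  refine continuous_pi fun i => ?_
  unfold fl
  split_ifs
  · exact (continuous_of_discreteTopology (f := fun b : Bool => !b)).comp (continuous_apply i)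
  · exact continuous_apply i

def flH (m : ℕ) : (ℕ → Bool) ≃ₜ (ℕ → Bool) where
  toFun := fl m
  invFun := fl m
  left_inv := fl_fl m
  right_inv := fl_fl m
  continuous_toFun := fl_cont m
  continuous_invFun := fl_cont m

lemma no_baire (A : Set (ℕ → Bool)) (hA : BaireMeasurableSet A)
    (h : ∀ m x, fl m x ∈ A ↔ x ∉ A) : False := by
  obtain ⟨U, hU, hAU⟩ := hA.residualEq_isOpen
  have hm : ∀ m, ∀ᶠ x in residual (ℕ → Bool), (x ∈ A ↔ x ∈ U) ∧ (fl m x ∈ A ↔ fl m x ∈ U) := by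
    intro m
    have h1 : ∀ᶠ x in residual (ℕ → Bool), (x ∈ A ↔ x ∈ U) := Filter.eventuallyEq_set.1 hAU
    exact h1.and ((tendsto_residual_of_isOpenMap (flH m).continuous (flH m).isOpenMap).eventually h1)
  rcases U.eq_empty_or_nonempty with rfl | ⟨z, hz⟩
  · obtain ⟨x, hx⟩ := (dense_of_mem_residual (hm 0)).nonempty
    have := h 0 x
    simp only [Set.mem_setOf_eq, Set.mem_empty_iff_false, iff_false] at hx
    tauto
  · obtain ⟨I, u, h1, h2⟩ := isOpen_pi_iff.1 hU z hz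
    obtain ⟨m, hmI⟩ := I.exists_notMem
    have hV : IsOpen ((I : Set ℕ).pi u) := isOpen_set_pi I.finite_toSet fun i hi => (h1 i hi).1
    obtain ⟨x, hx, hx'⟩ := (dense_of_mem_residual (hm m)).inter_open_nonempty _ hV
      ⟨z, fun i hi => (h1 i hi).2⟩
    have hx2 : fl m x ∈ (I : Set ℕ).pi u := by
      intro i hi
      have : i ≠ m := fun e => hmI (e ▸ hi)
      simp only [fl, this, if_false]
      exact hx i hi
    have := h m x
    have h3 := hx'.1.2 (h2 hx)
    have h4 := hx'.2.2 (h2 hx2)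
    tauto

lemma borel_side (a : ℕ → ℕ) (ha : ∀ n, 2 ≤ a n) (hR : ∀ n, R (a n) (a (n + 1))) (c : XX → Fin 2)
    (hc : BaireMeasurableSet (c ⁻¹' {0})) (h : ∀ v, Q (GG a) c v) : False := by
  have hf := flip c fun n x => Q_main a ha hR c n x (h _)
  have hco : Continuous fun x : ℕ → Bool => ((0, 0, x) : XX) := by fun_prop
  have hop : IsOpenMap fun x : ℕ → Bool => ((0, 0, x) : XX) := by
    intro U hU
    have : (fun x : ℕ → Bool => ((0, 0, x) : XX)) '' U = {0} ×ˢ ({0} ×ˢ U) := by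
      ext ⟨p, q, r⟩
      simp [eq_comm]
      tauto
    rw [this]
    exact (isOpen_discrete _).prod ((isOpen_discrete _).prod hU)
  refine no_baire _ (hc.preimage hco hop) fun m x => ?_
  have := hf m 0 (fl m x) x (fun i hi => by simp [fl, hi]) (by simp [fl])
  simp only [Set.mem_preimage, Set.mem_singleton_iff]
  revert this
  generalize c (0, 0, fl m x) = p
  generalize c (0, 0, x) = q
  revert p q
  decide

end Pool.Agent.H.MP_8bf09d_lc
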